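import Mathlib

namespace Pool.Agent.Results.MP_e5baee_al.Full

open Matrix

abbrev Mat (m : ℕ) : Type := Matrix (Fin (m + 1)) (Fin (m + 1)) ℤ

/-- `ρ(σᵢ)`: the identity with the block `[[2, -1], [1, 0]]` on coordinates `i, i+1`. -/
def sig {m : ℕ} (i : Fin m) : Mat m :=
  1 + single i.castSucc i.castSucc 1 - single i.castSucc i.succ 1 + single i.succ i.castSucc 1 -
    single i.succ i.succ 1

/-- `ρ(τᵢ)`: the identity with the block `[[0, 1], [1, 0]]` on coordinates `i, i+1`. -/
def tau {m : ℕ} (i : Fin m) : Mat m :=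
  1 - single i.castSucc i.castSucc 1 + single i.castSucc i.succ 1 + single i.succ i.castSucc 1 -
    single i.succ i.succ 1

/-- The image of the virtual braid group: the subgroup generated by all `ρ(σᵢ)`, `ρ(τᵢ)`. -/
def Img (m : ℕ) : Subgroup (GL (Fin (m + 1)) ℤ) :=
  Subgroup.closure {g | ∃ i : Fin m, (g : Mat m) = sig i ∨ (g : Mat m) = tau i}

variable {m : ℕ}

def In (M : Mat m) : Prop := ∃ g ∈ Img m, (g : Mat m) = M

lemma In.mul {M N : Mat m} (h : In M) (h' : In N) : In (M * N) := by
  obtain ⟨g, hg, rfl⟩ := h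
  obtain ⟨g', hg', rfl⟩ := h'
  exact ⟨g * g', mul_mem hg hg', rfl⟩

def R (i j : Fin (m + 1)) : Mat m := 1 - single i i 2 + single i j 2

lemma mulR (M : Mat m) (i j a b : Fin (m + 1)) : (M * R i j) a b =
    M a b - (if b = i then 2 * M a i else 0) + (if b = j then 2 * M a i else 0) := by
  have e : ∀ c : Fin (m + 1), (M * single i c (2 : ℤ)) a b = if b = c then 2 * M a i else 0 := by
    intro c
    split_ifs with h
    · rw [h, mul_single_apply_same, mul_comm]
    · exact mul_single_apply_of_ne _ _ _ _ _ h _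
  rw [R, mul_add, mul_sub, mul_one, Matrix.add_apply, Matrix.sub_apply, e, e]

lemma R_apply (i j a b : Fin (m + 1)) : R i j a b = (if a = b then 1 else 0) -
    (if b = i then 2 * (if a = i then 1 else 0) else 0) +
    (if b = j then 2 * (if a = i then 1 else 0) else 0) := by
  rw [← one_mul (R i j), mulR, one_apply, one_apply]

lemma RR {i j : Fin (m + 1)} (h : i ≠ j) : R i j * R i j = 1 := by
  ext a b
  rw [mulR, R_apply, R_apply, one_apply]
  split_ifs <;> simp_all

lemma tau_eq (i : Fin m) : tau i = (Equiv.swap i.castSucc i.succ).permMatrix ℤ := by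
  have h : i.castSucc ≠ i.succ := Fin.castSucc_lt_succ.ne
  ext a b
  simp only [tau, Matrix.add_apply, Matrix.sub_apply, one_apply, single_apply, Equiv.Perm.permMatrix,
    PEquiv.toMatrix_apply, Equiv.toPEquiv_apply, Option.mem_def, Option.some.injEq,
    Equiv.swap_apply_def]
  grind

lemma tt (i : Fin m) : tau i * tau i = 1 := by
  rw [tau_eq, ← permMatrix_mul, Equiv.swap_mul_self, permMatrix_one]

lemma sig_eq (i : Fin m) : sig i = R i.castSucc i.succ * tau i := by
  have h : i.castSucc ≠ i.succ := Fin.castSucc_lt_succ.ne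
  rw [tau_eq, Equiv.Perm.permMatrix, PEquiv.mul_toMatrix_toPEquiv]
  ext a b
  simp only [sig, Matrix.add_apply, Matrix.sub_apply, one_apply, single_apply, submatrix_apply, id, R_apply,
    Equiv.symm_swap, Equiv.swap_apply_def]
  grind

lemma In_P (π : Equiv.Perm (Fin (m + 1))) : In (π.permMatrix ℤ) := by
  have : π ∈ Submonoid.closure (Set.range fun i : Fin m => Equiv.swap i.castSucc i.succ) := by
    rw [Equiv.Perm.mclosure_swap_castSucc_succ]; trivial
  induction this using Submonoid.closure_induction with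
  | mem x hx =>
    obtain ⟨i, rfl⟩ := hx
    exact ⟨⟨tau i, tau i, tt i, tt i⟩, Subgroup.subset_closure ⟨i, Or.inr rfl⟩, tau_eq i⟩
  | one => exact ⟨1, one_mem _, permMatrix_one.symm⟩
  | mul x y _ _ hx hy => rw [permMatrix_mul]; exact hy.mul hx

lemma In_R {i j : Fin (m + 1)} (h : i ≠ j) : In (R i j) := by
  have hm : 0 < m := by have := i.2; have := j.2; have := Fin.val_ne_of_ne h; omega
  let t : Fin m := ⟨0, hm⟩
  have ht : t.castSucc ≠ t.succ := Fin.castSucc_lt_succ.ne
  have h1 : In (sig t) := ⟨⟨sig t, tau t * R t.castSucc t.succ,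
    by rw [sig_eq, mul_assoc, ← mul_assoc (tau t), tt, one_mul, RR ht],
    by rw [sig_eq, mul_assoc, ← mul_assoc (R _ _), RR ht, one_mul, tt]⟩,
    Subgroup.subset_closure ⟨t, Or.inl rfl⟩, rfl⟩
  have h2 : In (R t.castSucc t.succ) := by
    have := h1.mul (tau_eq t ▸ In_P _ : In (tau t))
    rwa [sig_eq, mul_assoc, tt, mul_one] at this
  obtain ⟨π, p1, p2⟩ : ∃ π : Equiv.Perm (Fin (m + 1)), π i = t.castSucc ∧ π j = t.succ := by
    refine ⟨Equiv.swap (Equiv.swap i t.castSucc j) t.succ * Equiv.swap i t.castSucc, ?_, by simp⟩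
    rw [Equiv.Perm.mul_apply, Equiv.swap_apply_left]
    refine Equiv.swap_apply_of_ne_of_ne (fun e => h ?_) ht
    exact (Equiv.swap i t.castSucc).injective (by rw [Equiv.swap_apply_left]; exact e)
  have := ((In_P π).mul h2).mul (In_P π⁻¹)
  convert this using 1
  rw [Equiv.Perm.permMatrix, Equiv.Perm.permMatrix, PEquiv.mul_toMatrix_toPEquiv,
    PEquiv.toMatrix_toPEquiv_mul, ← p1, ← p2]
  ext a b
  simp [R_apply, Equiv.Perm.inv_def]

lemma In_of {M : Mat m} {i j : Fin (m + 1)} (h : i ≠ j) (hM : In (M * R i j)) : In M := by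
  have := hM.mul (In_R h)
  rwa [mul_assoc, RR h, mul_one] at this

def Good (F : Finset (Fin (m + 1))) (M : Mat m) : Prop :=
  (∃ N, M * N = 1) ∧ (∀ a, ∑ b, M a b = 1) ∧ (∀ a b, 2 ∣ M a b ↔ a ≠ b) ∧
    ∀ a ∉ F, ∀ b, M a b = if a = b then 1 else 0

lemma Good.step {F : Finset (Fin (m + 1))} {M : Mat m} (h : Good F M) {i j : Fin (m + 1)}
    (hi : i ∈ F) (hij : i ≠ j) : Good F (M * R i j) := by
  obtain ⟨⟨N, hN⟩, h2, h3, h4⟩ := h
  refine ⟨⟨R i j * N, by rw [mul_assoc, ← mul_assoc (R i j), RR hij, one_mul, hN]⟩, fun a => ?_,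
    fun a b => ?_, fun a ha b => ?_⟩
  · simp [mulR, Finset.sum_add_distrib, Finset.sum_sub_distrib, h2]
  · rw [mulR, ← h3 a b]
    split_ifs <;> omega
  · have : M a i = 0 := by rw [h4 a ha, if_neg (fun e : a = i => ha (e ▸ hi))]
    rw [mulR, this, h4 a ha]; simp

lemma opp (v : Fin (m + 1) → ℤ) (k : Fin (m + 1)) (hs : ∑ b, v b = 1) (hk : ¬ 2 ∣ v k) :
    (∀ j, j ≠ k → v j = 0) ∨ ∃ j, j ≠ k ∧ v j * v k < 0 := by
  by_contra h
  push Not at h
  obtain ⟨⟨j, hj, hj0⟩, h2⟩ := h
  rw [← Finset.add_sum_erase _ _ (Finset.mem_univ k)] at hs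
  rcases lt_trichotomy (v k) 0 with h0 | h0 | h0
  · have : ∑ b ∈ Finset.univ.erase k, v b ≤ 0 := Finset.sum_nonpos fun b hb =>
      nonpos_of_mul_nonneg_left (h2 b (Finset.ne_of_mem_erase hb)) h0
    omega
  · omega
  · have h3 : ∀ b ∈ Finset.univ.erase k, 0 ≤ v b := fun b hb =>
      nonneg_of_mul_nonneg_left (h2 b (Finset.ne_of_mem_erase hb)) h0
    have h4 := Finset.single_le_sum h3 (Finset.mem_erase.2 ⟨hj, Finset.mem_univ j⟩)
    have h5 := h3 j (Finset.mem_erase.2 ⟨hj, Finset.mem_univ j⟩)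
    omega

lemma red (M : Mat m) (F : Finset (Fin (m + 1))) (k : Fin (m + 1)) {i j : Fin (m + 1)}
    (hj : j ∈ F) (hij : i ≠ j) (hs : M k i * M k j < 0) (hl : (M k i).natAbs < (M k j).natAbs) :
    ∑ b ∈ F, ((M * R i j) k b).natAbs < ∑ b ∈ F, (M k b).natAbs := by
  rw [mul_neg_iff] at hs
  refine Finset.sum_lt_sum (fun b _ => ?_) ⟨j, hj, ?_⟩
  · rw [mulR]
    split_ifs with h1 h2 h2
    · exact absurd (h1.symm.trans h2) hij
    · subst h1; omega
    · subst h2; omega
    · omega
  · rw [mulR, if_neg hij.symm, if_pos rfl]; omega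

lemma main (F : Finset (Fin (m + 1))) : ∀ M : Mat m, Good F M → In M := by
  induction F using Finset.induction_on with
  | empty =>
    intro M h
    refine ⟨1, one_mem _, ?_⟩
    ext a b
    rw [h.2.2.2 a (by simp) b]; exact one_apply
  | insert k F hk ih =>
    have hkF : k ∈ insert k F := Finset.mem_insert_self k F
    have l2 : ∀ (B : ℕ) (M : Mat m), Good (insert k F) M → (∀ j ∈ F, M k j = 0) →
        ∑ b, (M k b).natAbs = B → In M := by
      intro B
      induction B using Nat.strong_induction_on with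
      | _ B ihB =>
      intro M h hz hB
      rcases opp (M k) k (h.2.1 k) (by rw [h.2.2.1]; simp) with h0 | ⟨j, hj, hs⟩
      · refine ih M ⟨h.1, h.2.1, h.2.2.1, fun a ha b => ?_⟩
        by_cases e : a = k
        · subst e
          split_ifs with e2
          · subst e2
            rw [← h.2.1 a, Finset.sum_eq_single a (fun b _ hb => h0 b hb) (by simp)]
          · exact h0 b (Ne.symm e2)
        · exact h.2.2.2 a (by simp [e, ha]) b
      · obtain ⟨N, hN⟩ := h.1
        have h1 : M k k * N k k = 1 := by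
          have := congrFun (congrFun hN k) k
          rw [mul_apply, one_apply_eq, Finset.sum_eq_single k (fun b _ hb => ?_) (by simp)] at this
          · exact this
          by_cases hb2 : b ∈ F
          · rw [hz b hb2, zero_mul]
          · have e := congrFun (congrFun hN b) k
            rw [mul_apply, one_apply_ne hb] at e
            simp only [h.2.2.2 b (by simp [hb, hb2]), ite_mul, one_mul, zero_mul,
              Finset.sum_ite_eq, Finset.mem_univ, if_true] at e
            rw [e, mul_zero]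
        have h2 := Int.eq_one_or_neg_one_of_mul_eq_one h1
        have h3 := (h.2.2.1 k j).2 hj.symm
        have h4 : M k j ≠ 0 := fun e => by rw [e, zero_mul] at hs; omega
        refine In_of hj.symm (ihB _ (hB ▸ red M _ k (Finset.mem_univ j) hj.symm
          (by rwa [mul_comm]) (by omega)) _ (h.step hkF hj.symm) (fun b hb => ?_) rfl)
        rw [mulR, if_neg (fun e : b = k => hk (e ▸ hb)),
          if_neg (fun e : b = j => h4 (e ▸ hz b hb)), hz b hb]
        rfl
    have l1 : ∀ (A : ℕ) (M : Mat m), Good (insert k F) M →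
        ∑ b ∈ insert k F, (M k b).natAbs = A → In M := by
      intro A
      induction A using Nat.strong_induction_on with
      | _ A ihA =>
      have key : ∀ M : Mat m, Good (insert k F) M → ∑ b ∈ insert k F, (M k b).natAbs = A →
          ∀ j ∈ insert k F, j ≠ k → M k j * M k k < 0 → In M := by
        intro M h hA j hjF hj hs
        have h1 := (h.2.2.1 k j).2 hj.symm
        have h2 : ¬ 2 ∣ M k k := by rw [h.2.2.1]; simp
        rcases lt_trichotomy (M k j).natAbs (M k k).natAbs with h3 | h3 | h3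
        · exact In_of hj (ihA _ (hA ▸ red M _ k hkF hj hs h3) _ (h.step hjF hj) rfl)
        · omega
        · exact In_of hj.symm (ihA _ (hA ▸ red M _ k hjF hj.symm (by rwa [mul_comm]) h3) _
            (h.step hkF hj.symm) rfl)
      intro M h hA
      by_cases hz : ∀ j ∈ F, M k j = 0
      · exact l2 _ M h hz rfl
      push Not at hz
      obtain ⟨j, hjF, hj0⟩ := hz
      have hj : j ≠ k := fun e => hk (e ▸ hjF)
      by_cases hu : ∀ z, z ∈ insert k F
      · rcases opp (M k) k (h.2.1 k) (by rw [h.2.2.1]; simp) with h0 | ⟨j', hj', hs⟩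
        · exact absurd (h0 j hj) hj0
        · exact key M h hA j' (hu j') hj' hs
      push Not at hu
      obtain ⟨z, hzF⟩ := hu
      have hjF' : j ∈ insert k F := Finset.mem_insert_of_mem hjF
      have hjz : j ≠ z := fun e => hzF (e ▸ hjF')
      by_cases hs : M k j * M k k < 0
      · exact key M h hA j hjF' hj hs
      have h2 : M k k ≠ 0 := fun e => by
        have := (h.2.2.1 k k).1 (by rw [e]; simp)
        exact this rfl
      refine In_of hjz (key _ (h.step hjF' hjz) ?_ j hjF' hj ?_)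
      · rw [← hA]
        refine Finset.sum_congr rfl fun b hb => ?_
        rw [mulR, if_neg (fun e : b = z => hzF (e ▸ hb))]
        split_ifs with e
        · subst e; omega
        · omega
      · rw [mulR, mulR, if_pos rfl, if_neg hjz, if_neg hj.symm,
          if_neg (fun e : k = z => hzF (e ▸ hkF))]
        have := mul_ne_zero hj0 h2
        have e : (M k j - 2 * M k j + 0) * (M k k - 0 + 0) = -(M k j * M k k) := by ring
        rw [e]; omega
    exact fun M h => l1 _ M h rfl

theorem result (m : ℕ) (g : GL (Fin (m + 1)) ℤ) :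
    g ∈ Img m ↔ (∀ i, ∑ j, (g : Mat m) i j = 1) ∧ ∃ π : Equiv.Perm (Fin (m + 1)),
      (g : Mat m).map (Int.cast : ℤ → ZMod 2) = π.permMatrix (ZMod 2) := by
  have hs : ∀ M : Mat m, (∀ i, ∑ j, M i j = 1) ↔ M *ᵥ 1 = 1 := fun M => by
    simp [funext_iff, mulVec, dotProduct]
  have hm : ∀ M N : Mat m, (M * N).map (Int.cast : ℤ → ZMod 2) =
      M.map Int.cast * N.map Int.cast := fun M N => Matrix.map_mul (f := Int.castRingHom (ZMod 2))
  have hP : ∀ π : Equiv.Perm (Fin (m + 1)), (π.permMatrix ℤ).map (Int.cast : ℤ → ZMod 2) =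
      π.permMatrix (ZMod 2) := fun π => by
    ext a b; simp [Equiv.Perm.permMatrix, PEquiv.toMatrix_apply]
  have hP1 : ∀ π : Equiv.Perm (Fin (m + 1)), π.permMatrix ℤ *ᵥ 1 = 1 := fun π => by
    rw [permMatrix_mulVec]; rfl
  constructor
  · intro hg
    rw [hs]
    induction hg using Subgroup.closure_induction with
    | mem x hx =>
      obtain ⟨i, hx | hx⟩ := hx
      · have r1 : R i.castSucc i.succ *ᵥ 1 = 1 := (hs _).1 fun a => by
          simp [R_apply, Finset.sum_add_distrib, Finset.sum_sub_distrib]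
        have r2 : (R i.castSucc i.succ).map (Int.cast : ℤ → ZMod 2) = 1 := by
          have : (2 : ZMod 2) = 0 := rfl
          ext a b; simp [R_apply, one_apply, this]
        rw [hx, sig_eq, tau_eq, hm, r2, one_mul, ← mulVec_mulVec, hP1, r1]
        exact ⟨rfl, _, hP _⟩
      · rw [hx, tau_eq]; exact ⟨hP1 _, _, hP _⟩
    | one => exact ⟨one_mulVec _, 1, by rw [← hP, permMatrix_one]; rfl⟩
    | mul x y _ _ hx hy =>
      obtain ⟨x1, π, x2⟩ := hx
      obtain ⟨y1, ρ, y2⟩ := hy
      refine ⟨by rw [Units.val_mul, ← mulVec_mulVec, y1, x1], ρ * π, ?_⟩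
      rw [Units.val_mul, hm, x2, y2, permMatrix_mul]
    | inv x _ hx =>
      obtain ⟨x1, π, x2⟩ := hx
      refine ⟨by conv_lhs => rw [← x1, mulVec_mulVec, Units.inv_mul, one_mulVec], π⁻¹, ?_⟩
      have e := hm (x⁻¹ : GL (Fin (m + 1)) ℤ) x
      rw [Units.inv_mul, x2, ← permMatrix_one, hP, permMatrix_one] at e
      have e2 := congrArg (· * π⁻¹.permMatrix (ZMod 2)) e
      simp only [one_mul, mul_assoc, ← permMatrix_mul, inv_mul_cancel, permMatrix_one,
        mul_one] at e2
      exact e2.symm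
  · rintro ⟨h1, π, h2⟩
    have hM : In ((g : Mat m) * π⁻¹.permMatrix ℤ) := by
      refine main Finset.univ _ ⟨⟨π.permMatrix ℤ * (g⁻¹ : GL (Fin (m + 1)) ℤ), ?_⟩, ?_,
        fun a b => ?_, by simp⟩
      · rw [mul_assoc, ← mul_assoc (π⁻¹.permMatrix ℤ), ← permMatrix_mul, mul_inv_cancel,
          permMatrix_one, one_mul, Units.mul_inv]
      · rw [hs, ← mulVec_mulVec, hP1, (hs _).1 h1]
      · have e := hm g (π⁻¹.permMatrix ℤ)
        rw [h2, hP, ← permMatrix_mul, inv_mul_cancel, permMatrix_one] at e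
        have e2 := congrFun (congrFun e a) b
        rw [map_apply, one_apply] at e2
        rw [show (2 : ℤ) = ((2 : ℕ) : ℤ) from rfl, ← ZMod.intCast_zmod_eq_zero_iff_dvd, e2]
        simp
    obtain ⟨g', hg', e⟩ := hM.mul (In_P π)
    rw [mul_assoc, ← permMatrix_mul, mul_inv_cancel, permMatrix_one, mul_one] at e
    exact Units.ext e ▸ hg'

end Pool.Agent.Results.MP_e5baee_al.Full
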